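import Mathlib
import Pool.Agent.INW.Main

/-!
# Nonvanishing elements of finite solvable groups lie in the Fitting subgroup

This is the conjecture of Isaacs, Navarro and Wolf: if `G` is a finite solvable group and `x ∈ G`
is nonvanishing, that is `χ(x) ≠ 0` for every complex irreducible character `χ` of `G`, then `x`
lies in a nilpotent normal subgroup of `G`, that is in the Fitting subgroup of `G`. There is no
assumption on the order of `x`.

Outline of the proof (files in `Pool/Agent/INW/`).

* `Char`: if `J` is a normal subgroup and `lam` a linear character of `J`, some conjugate `y` of `x`
  satisfies `lam [y, g] = 1` for all `g` that fix `lam` and have `[y, g] ∈ J`.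
* `Perm`, `Lin`, `LemS`, `Blk`: nilpotent normal subgroups of permutation groups in which every
  subset is stabilised by a conjugate of `x`; averaging, regular vectors, minimal blocks; a nilpotent
  normal subgroup `P` of `L` all of whose `L`-normal abelian subgroups are cyclic has abelian
  commutator subgroup; the action of a nilpotent normal subgroup on a minimal block.
* `ThmA`: if `H` acts faithfully and irreducibly on an elementary abelian group `M`, `x ∈ H` is
  nonvanishing, its normal closure is nilpotent, and every element of `M` is fixed by a conjugate of
  `x`, then `x = 1`.
* `Main`: induction on the order of `G`, applying `ThmA` to the dual of a minimal normal subgroup.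
-/

set_option autoImplicit false

universe u

/-- Let `G` be a finite solvable group and let `x ∈ G` be such that `χ(x) ≠ 0` for the character `χ`
of every irreducible complex representation of `G`. Then `x` lies in a nilpotent normal subgroup
of `G`. -/
theorem Pool.Agent.Results.MP_dfafce_al.NonvanishingFitting.result
    (G : Type u) [Group G] [Finite G] [Group.IsSolvable G] (x : G)
    (hx : ∀ (n : ℕ) (ρ : Representation ℂ G (Fin n → ℂ)), ρ.IsIrreducible → ρ.character x ≠ 0) :
    ∃ N : Subgroup G, N.Normal ∧ Group.IsNilpotent N ∧ x ∈ N :=
  Pool.Agent.INW.exists_nilpotent_normal hx
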